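import Pool.Agent.Helper3_PPX.Geo

/-! Module TAY of squad PPX: the first order condition. -/

set_option autoImplicit false

universe u

namespace Pool.Agent.PPX.H19

open MvPolynomial PGH

theorem pla_span {k : Type*} [Field k] (α β : k) (Q : P4 k) :
    Q - pla α β Q ∈ Ideal.span ({X 0 - C α, X 1 - C β} : Set (P4 k)) := by
  set I := Ideal.span ({X 0 - C α, X 1 - C β} : Set (P4 k)) with hI
  have h0 : X 0 - C α ∈ I := Ideal.subset_span (by simp)
  have h1 : X 1 - C β ∈ I := Ideal.subset_span (by simp)
  induction Q using MvPolynomial.induction_on with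
  | C a => simp [pla]
  | add p q hp hq =>
    rw [map_add, add_sub_add_comm]
    exact I.add_mem hp hq
  | mul_X p i hp =>
    have h2 : p * X i - pla α β (p * X i) = (p - pla α β p) * X i +
        pla α β p * (X i - pla α β (X i)) := by
      rw [map_mul]; ring
    rw [h2]
    refine I.add_mem (I.mul_mem_right _ hp) (I.mul_mem_left _ ?_)
    fin_cases i
    · simpa [pla] using h0
    · simpa [pla] using h1
    · simp [pla]
    · simp [pla]

theorem pla_split {k : Type*} [Field k] {α β : k} {Q : P4 k} (h : pla α β Q = 0) :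
    ∃ A B : P4 k, Q = (X 0 - C α) * A + (X 1 - C β) * B := by
  have h1 := pla_span α β Q
  rw [h, sub_zero, Ideal.mem_span_pair] at h1
  obtain ⟨A, B, h2⟩ := h1
  exact ⟨A, B, by rw [← h2]; ring⟩

theorem ge_aeval {k L E : Type u} [Field k] [Field L] [Field E] [Algebra k L] [Algebra L E]
    [Algebra k E] [IsScalarTower k L E] (P : Place L E) {e : Fin 4 → E} (he : ∀ i, P.Ge 0 (e i))
    (Q : P4 k) : P.Ge 0 (aeval e Q) := by
  have hc : ∀ a : k, P.Ge 0 (algebraMap k E a) := fun a => by
    rw [IsScalarTower.algebraMap_apply k L E]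
    exact P.ge_const _
  induction Q using MvPolynomial.induction_on with
  | C a => rw [aeval_C]; exact hc a
  | add p q hp hq => rw [map_add]; exact hp.add hq
  | mul_X p i hp => rw [map_mul, aeval_X]; exact hp.mul' (he i) (by simp)

theorem tay : TayStmt.{u} := by
  intro k L E _ _ _ _ _ _ _ P α β e Q h0 h1 hne h2 h3 hη hQ hpla
  have hc : ∀ a : k, P.Ge 0 (algebraMap k E a) := fun a => by
    rw [IsScalarTower.algebraMap_apply k L E]
    exact P.ge_const _
  have g0 : P.Ge 0 (e 0) := by
    have := (h0.mono (by norm_num : (0 : ℤ) ≤ 1)).add (hc α)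
    rwa [sub_add_cancel] at this
  have g1 : P.Ge 0 (e 1) := by
    have := (h1.mono (by norm_num : (0 : ℤ) ≤ 1)).add (hc β)
    rwa [sub_add_cancel] at this
  have he : ∀ i, P.Ge 0 (e i) := by
    intro i
    fin_cases i
    · exact g0
    · exact g1
    · exact h2
    · exact h3
  obtain ⟨A, B, rfl⟩ := pla_split hpla
  have d0 : pderiv 0 ((X 0 - C α) * A + (X 1 - C β) * B : P4 k) =
      A + (X 0 - C α) * pderiv 0 A + (X 1 - C β) * pderiv 0 B := by
    simp only [map_add, map_sub, Derivation.leibniz, pderiv_X_self, pderiv_C, smul_eq_mul,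
      pderiv_X_of_ne (show (1 : Fin 4) ≠ 0 by decide)]
    ring
  have d1 : pderiv 1 ((X 0 - C α) * A + (X 1 - C β) * B : P4 k) =
      (X 0 - C α) * pderiv 1 A + B + (X 1 - C β) * pderiv 1 B := by
    simp only [map_add, map_sub, Derivation.leibniz, pderiv_X_self, pderiv_C, smul_eq_mul,
      pderiv_X_of_ne (show (0 : Fin 4) ≠ 1 by decide)]
    ring
  rw [d0, d1]
  have hne' : e 1 - algebraMap k E β ≠ 0 := sub_ne_zero.mpr hne
  have hz : (e 0 - algebraMap k E α) / (e 1 - algebraMap k E β) * aeval e A + aeval e B = 0 := by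
    have h5 : (e 0 - algebraMap k E α) * aeval e A + (e 1 - algebraMap k E β) * aeval e B = 0 := by
      rw [map_add, map_mul, map_mul, map_sub, map_sub, aeval_X, aeval_X, aeval_C, aeval_C] at hQ
      exact hQ
    have h6 : (e 1 - algebraMap k E β) *
        ((e 0 - algebraMap k E α) / (e 1 - algebraMap k E β) * aeval e A + aeval e B) = 0 := by
      rw [← h5]; field_simp
    exact (mul_eq_zero.mp h6).resolve_left hne'
  have key : e 2 * aeval e (A + (X 0 - C α) * pderiv 0 A + (X 1 - C β) * pderiv 0 B) +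
      aeval e ((X 0 - C α) * pderiv 1 A + B + (X 1 - C β) * pderiv 1 B) =
      (e 2 - (e 0 - algebraMap k E α) / (e 1 - algebraMap k E β)) * aeval e A +
      ((e 0 - algebraMap k E α) * (e 2 * aeval e (pderiv 0 A) + aeval e (pderiv 1 A)) +
      (e 1 - algebraMap k E β) * (e 2 * aeval e (pderiv 0 B) + aeval e (pderiv 1 B))) := by
    simp only [map_add, map_mul, map_sub, aeval_X, aeval_C]
    linear_combination hz
  rw [key]
  have ga := fun Q : P4 k => ge_aeval P he Q
  refine (hη.mul' (ga A) (by norm_num)).add ((h0.mul' ((h2.mul' (ga _) (by norm_num)).add (ga _))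
    (by norm_num)).add (h1.mul' ((h2.mul' (ga _) (by norm_num)).add (ga _)) (by norm_num)))

end Pool.Agent.PPX.H19
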